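import Pool.Agent.W620.BM.Stm

/-!
# BM-COMB
-/

set_option autoImplicit false

namespace Pool.Agent.W249.BM

open Pool.Agent.W620.BM

/-- three updates -/
def up (v : Fin 6 → Bool) (i j k : Fin 6) (a b c : Bool) : Fin 6 → Bool :=
  Function.update (Function.update (Function.update v i a) j b) k c

/-- first involution -/
def f1 (v : Fin 6 → Bool) : Fin 6 → Bool := ![!v 0, v 1, v 3, v 2, v 5, v 4]

/-- second involution -/
def f2 (v : Fin 6 → Bool) : Fin 6 → Bool := ![v 0, !v 1, v 4, v 5, v 2, v 3]

theorem prod8 (F : (Fin 3 → Bool) → ℂ) : ∏ ε, F ε =
    F ![false, false, false] * F ![false, false, true] * F ![false, true, false] *
    F ![false, true, true] * F ![true, false, false] * F ![true, false, true] *
    F ![true, true, false] * F ![true, true, true] := by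
  have h : (Finset.univ : Finset (Fin 3 → Bool)) = {![false, false, false],
      ![false, false, true], ![false, true, false], ![false, true, true], ![true, false, false],
      ![true, false, true], ![true, true, false], ![true, true, true]} := by decide
  rw [h, Finset.prod_insert (by decide), Finset.prod_insert (by decide),
    Finset.prod_insert (by decide), Finset.prod_insert (by decide),
    Finset.prod_insert (by decide), Finset.prod_insert (by decide),
    Finset.prod_insert (by decide), Finset.prod_singleton]
  ring

theorem comb : S_comb := by
  intro E hE h3 h4 h5
  have hn : ∀ v, ∃ n : ℕ, E v = (-1) ^ n := by
    intro v
    rcases sq_eq_one_iff.mp (hE v) with h | h
    · exact ⟨0, by rw [h, pow_zero]⟩
    · exact ⟨1, by rw [h, pow_one]⟩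
  choose n hn using hn
  have hev : ∀ m : ℕ, (-1 : ℂ) ^ m = 1 → Even m := fun m hm =>
    (neg_one_pow_eq_one_iff_even (by norm_num)).mp hm
  have rel : ∀ (v : Fin 6 → Bool) (i j k : Fin 6), i ≠ j → i ≠ k → j ≠ k →
      Even (n (up v i j k false false false) + n (up v i j k false false true) +
        n (up v i j k false true false) + n (up v i j k false true true) +
        n (up v i j k true false false) + n (up v i j k true false true) +
        n (up v i j k true true false) + n (up v i j k true true true)) := by
    intro v i j k hij hik hjk
    have h := h3 v i j k hij hik hjk
    rw [prod8] at h
    apply hev
    simp only [hn, ← pow_add] at h
    exact h
  have inv1 : ∀ v, Even (n (f1 v) + n v) := by
    intro v
    apply hev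
    rw [pow_add, ← hn, ← hn]
    have h : E (f1 v) = E v := h4 v
    rw [h, ← sq]
    exact hE v
  have inv2 : ∀ v, Even (n (f2 v) + n v) := by
    intro v
    apply hev
    rw [pow_add, ← hn, ← hn]
    have h : E (f2 v) = E v := h5 v
    rw [h, ← sq]
    exact hE v
  have r0 := rel ![false, false, false, false, false, false] 0 1 2 (by decide) (by decide) (by decide)
  rw [show up ![false, false, false, false, false, false] 0 1 2 false false false = ![false, false, false, false, false, false] from by decide,
    show up ![false, false, false, false, false, false] 0 1 2 false false true = ![false, false, true, false, false, false] from by decide,
    show up ![false, false, false, false, false, false] 0 1 2 false true false = ![false, true, false, false, false, false] from by decide,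
    show up ![false, false, false, false, false, false] 0 1 2 false true true = ![false, true, true, false, false, false] from by decide,
    show up ![false, false, false, false, false, false] 0 1 2 true false false = ![true, false, false, false, false, false] from by decide,
    show up ![false, false, false, false, false, false] 0 1 2 true false true = ![true, false, true, false, false, false] from by decide,
    show up ![false, false, false, false, false, false] 0 1 2 true true false = ![true, true, false, false, false, false] from by decide,
    show up ![false, false, false, false, false, false] 0 1 2 true true true = ![true, true, true, false, false, false] from by decide] at r0
  have r1 := rel ![false, false, false, false, false, false] 0 2 4 (by decide) (by decide) (by decide)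
  rw [show up ![false, false, false, false, false, false] 0 2 4 false false false = ![false, false, false, false, false, false] from by decide,
    show up ![false, false, false, false, false, false] 0 2 4 false false true = ![false, false, false, false, true, false] from by decide,
    show up ![false, false, false, false, false, false] 0 2 4 false true false = ![false, false, true, false, false, false] from by decide,
    show up ![false, false, false, false, false, false] 0 2 4 false true true = ![false, false, true, false, true, false] from by decide,
    show up ![false, false, false, false, false, false] 0 2 4 true false false = ![true, false, false, false, false, false] from by decide,
    show up ![false, false, false, false, false, false] 0 2 4 true false true = ![true, false, false, false, true, false] from by decide,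
    show up ![false, false, false, false, false, false] 0 2 4 true true false = ![true, false, true, false, false, false] from by decide,
    show up ![false, false, false, false, false, false] 0 2 4 true true true = ![true, false, true, false, true, false] from by decide] at r1
  have r2 := rel ![false, false, false, false, false, false] 0 2 5 (by decide) (by decide) (by decide)
  rw [show up ![false, false, false, false, false, false] 0 2 5 false false false = ![false, false, false, false, false, false] from by decide,
    show up ![false, false, false, false, false, false] 0 2 5 false false true = ![false, false, false, false, false, true] from by decide,
    show up ![false, false, false, false, false, false] 0 2 5 false true false = ![false, false, true, false, false, false] from by decide,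
    show up ![false, false, false, false, false, false] 0 2 5 false true true = ![false, false, true, false, false, true] from by decide,
    show up ![false, false, false, false, false, false] 0 2 5 true false false = ![true, false, false, false, false, false] from by decide,
    show up ![false, false, false, false, false, false] 0 2 5 true false true = ![true, false, false, false, false, true] from by decide,
    show up ![false, false, false, false, false, false] 0 2 5 true true false = ![true, false, true, false, false, false] from by decide,
    show up ![false, false, false, false, false, false] 0 2 5 true true true = ![true, false, true, false, false, true] from by decide] at r2
  have r3 := rel ![false, false, false, false, false, true] 1 2 3 (by decide) (by decide) (by decide)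
  rw [show up ![false, false, false, false, false, true] 1 2 3 false false false = ![false, false, false, false, false, true] from by decide,
    show up ![false, false, false, false, false, true] 1 2 3 false false true = ![false, false, false, true, false, true] from by decide,
    show up ![false, false, false, false, false, true] 1 2 3 false true false = ![false, false, true, false, false, true] from by decide,
    show up ![false, false, false, false, false, true] 1 2 3 false true true = ![false, false, true, true, false, true] from by decide,
    show up ![false, false, false, false, false, true] 1 2 3 true false false = ![false, true, false, false, false, true] from by decide,
    show up ![false, false, false, false, false, true] 1 2 3 true false true = ![false, true, false, true, false, true] from by decide,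
    show up ![false, false, false, false, false, true] 1 2 3 true true false = ![false, true, true, false, false, true] from by decide,
    show up ![false, false, false, false, false, true] 1 2 3 true true true = ![false, true, true, true, false, true] from by decide] at r3
  have r4 := rel ![false, false, false, false, false, false] 2 3 4 (by decide) (by decide) (by decide)
  rw [show up ![false, false, false, false, false, false] 2 3 4 false false false = ![false, false, false, false, false, false] from by decide,
    show up ![false, false, false, false, false, false] 2 3 4 false false true = ![false, false, false, false, true, false] from by decide,
    show up ![false, false, false, false, false, false] 2 3 4 false true false = ![false, false, false, true, false, false] from by decide,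
    show up ![false, false, false, false, false, false] 2 3 4 false true true = ![false, false, false, true, true, false] from by decide,
    show up ![false, false, false, false, false, false] 2 3 4 true false false = ![false, false, true, false, false, false] from by decide,
    show up ![false, false, false, false, false, false] 2 3 4 true false true = ![false, false, true, false, true, false] from by decide,
    show up ![false, false, false, false, false, false] 2 3 4 true true false = ![false, false, true, true, false, false] from by decide,
    show up ![false, false, false, false, false, false] 2 3 4 true true true = ![false, false, true, true, true, false] from by decide] at r4
  have r5 := rel ![false, true, false, false, false, true] 2 3 4 (by decide) (by decide) (by decide)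
  rw [show up ![false, true, false, false, false, true] 2 3 4 false false false = ![false, true, false, false, false, true] from by decide,
    show up ![false, true, false, false, false, true] 2 3 4 false false true = ![false, true, false, false, true, true] from by decide,
    show up ![false, true, false, false, false, true] 2 3 4 false true false = ![false, true, false, true, false, true] from by decide,
    show up ![false, true, false, false, false, true] 2 3 4 false true true = ![false, true, false, true, true, true] from by decide,
    show up ![false, true, false, false, false, true] 2 3 4 true false false = ![false, true, true, false, false, true] from by decide,
    show up ![false, true, false, false, false, true] 2 3 4 true false true = ![false, true, true, false, true, true] from by decide,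
    show up ![false, true, false, false, false, true] 2 3 4 true true false = ![false, true, true, true, false, true] from by decide,
    show up ![false, true, false, false, false, true] 2 3 4 true true true = ![false, true, true, true, true, true] from by decide] at r5
  have s0 := inv1 ![true, false, true, false, false, false]
  rw [show f1 ![true, false, true, false, false, false] = ![false, false, false, true, false, false] from by decide] at s0
  have s1 := inv2 ![false, true, false, true, false, true]
  rw [show f2 ![false, true, false, true, false, true] = ![false, false, false, true, false, true] from by decide] at s1
  have s2 := inv1 ![true, false, false, false, true, false]
  rw [show f1 ![true, false, false, false, true, false] = ![false, false, false, false, false, true] from by decide] at s2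
  have s3 := inv1 ![true, true, false, false, false, false]
  rw [show f1 ![true, true, false, false, false, false] = ![false, true, false, false, false, false] from by decide] at s3
  have s4 := inv2 ![false, true, false, false, false, false]
  rw [show f2 ![false, true, false, false, false, false] = ![false, false, false, false, false, false] from by decide] at s4
  have s5 := inv1 ![true, false, false, false, false, true]
  rw [show f1 ![true, false, false, false, false, true] = ![false, false, false, false, true, false] from by decide] at s5
  have s6 := inv2 ![false, true, true, true, false, true]
  rw [show f2 ![false, true, true, true, false, true] = ![false, false, false, true, true, true] from by decide] at s6
  have s7 := inv1 ![true, false, true, false, false, true]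
  rw [show f1 ![true, false, true, false, false, true] = ![false, false, false, true, true, false] from by decide] at s7
  have s8 := inv2 ![false, true, false, false, true, true]
  rw [show f2 ![false, true, false, false, true, true] = ![false, false, true, true, false, false] from by decide] at s8
  have s9 := inv2 ![false, true, false, true, true, true]
  rw [show f2 ![false, true, false, true, true, true] = ![false, false, true, true, false, true] from by decide] at s9
  have s10 := inv1 ![true, false, true, false, true, false]
  rw [show f1 ![true, false, true, false, true, false] = ![false, false, false, true, false, true] from by decide] at s10
  have s11 := inv2 ![false, true, true, false, true, true]
  rw [show f2 ![false, true, true, false, true, true] = ![false, false, true, true, true, false] from by decide] at s11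
  have s12 := inv2 ![false, true, true, false, false, false]
  rw [show f2 ![false, true, true, false, false, false] = ![false, false, false, false, true, false] from by decide] at s12
  have s13 := inv2 ![false, true, true, true, true, true]
  rw [show f2 ![false, true, true, true, true, true] = ![false, false, true, true, true, true] from by decide] at s13
  have s14 := inv2 ![false, true, false, false, false, true]
  rw [show f2 ![false, true, false, false, false, true] = ![false, false, false, true, false, false] from by decide] at s14
  have s15 := inv1 ![true, false, false, false, false, false]
  rw [show f1 ![true, false, false, false, false, false] = ![false, false, false, false, false, false] from by decide] at s15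
  have s16 := inv2 ![false, true, true, false, false, true]
  rw [show f2 ![false, true, true, false, false, true] = ![false, false, false, true, true, false] from by decide] at s16
  have s17 := inv1 ![true, true, true, false, false, false]
  rw [show f1 ![true, true, true, false, false, false] = ![false, true, false, true, false, false] from by decide] at s17
  have s18 := inv2 ![false, true, false, true, false, false]
  rw [show f2 ![false, true, false, true, false, false] = ![false, false, false, false, false, true] from by decide] at s18
  have key : Even (n ![false, false, true, true, true, true] +
      n ![false, false, false, false, false, false]) := by
    rw [Nat.even_iff] at r0 r1 r2 r3 r4 r5 s0 s1 s2 s3 s4 s5 s6 s7 s8 s9 s10 s11 s12 s13 s14 s15 s16 s17 s18 ⊢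
    omega
  rw [hn, hn]
  obtain ⟨m, hm⟩ := key
  have h1 : (-1 : ℂ) ^ n ![false, false, true, true, true, true] *
      (-1) ^ n ![false, false, false, false, false, false] = 1 := by
    rw [← pow_add, hm, ← two_mul, pow_mul]
    norm_num
  have h2 : ((-1 : ℂ) ^ n ![false, false, false, false, false, false]) ^ 2 = 1 := by
    rw [← pow_mul, mul_comm, pow_mul]
    norm_num
  calc (-1 : ℂ) ^ n ![false, false, true, true, true, true]
      = (-1 : ℂ) ^ n ![false, false, true, true, true, true] *
        ((-1 : ℂ) ^ n ![false, false, false, false, false, false]) ^ 2 := by rw [h2, mul_one]
    _ = ((-1 : ℂ) ^ n ![false, false, true, true, true, true] *
      (-1) ^ n ![false, false, false, false, false, false]) *
        (-1) ^ n ![false, false, false, false, false, false] := by ring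
    _ = _ := by rw [h1, one_mul]

end Pool.Agent.W249.BM
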