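import Pool.Agent.W620.BM.Stm

/-!
# BM-TRIV: global existence of continuous families of representations
-/

set_option autoImplicit false

namespace Pool.Agent.W249.BM

open Pool.Agent.W620.BM Matrix Topology

variable {R B : Type} [CommRing R] [Ring B] [Algebra R B] {n : ℕ}

theorem inv_mul' {g : Mat n} (hg : IsUnit g) : g⁻¹ * g = 1 :=
  Matrix.nonsing_inv_mul g ((Matrix.isUnit_iff_isUnit_det g).mp hg)

theorem mul_inv' {g : Mat n} (hg : IsUnit g) : g * g⁻¹ = 1 :=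
  Matrix.mul_nonsing_inv g ((Matrix.isUnit_iff_isUnit_det g).mp hg)

/-- conjugation of a representation -/
noncomputable def conjBy (g : Mat n) (hg : IsUnit g) (ρ : B →+* Mat n) : B →+* Mat n where
  toFun b := g * ρ b * g⁻¹
  map_one' := by rw [map_one, mul_one, mul_inv' hg]
  map_mul' a b := by
    rw [map_mul]
    calc g * (ρ a * ρ b) * g⁻¹ = g * ρ a * 1 * ρ b * g⁻¹ := by simp only [mul_one, mul_assoc]
      _ = g * ρ a * (g⁻¹ * g) * ρ b * g⁻¹ := by rw [inv_mul' hg]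
      _ = _ := by simp only [mul_assoc]
  map_zero' := by rw [map_zero, mul_zero, zero_mul]
  map_add' a b := by rw [map_add, mul_add, add_mul]

theorem conjBy_apply (g : Mat n) (hg : IsUnit g) (ρ : B →+* Mat n) (b : B) :
    conjBy g hg ρ b = g * ρ b * g⁻¹ := rfl

/-- conjugation as a linear map -/
noncomputable def conjL (g : Mat n) : Mat n →ₗ[ℂ] Mat n where
  toFun m := g * m * g⁻¹
  map_add' a b := by rw [mul_add, add_mul]
  map_smul' c a := by
    rw [RingHom.id_apply, mul_smul_comm, smul_mul_assoc]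

theorem isRep_conj {x : R →+* ℂ} {g : Mat n} (hg : IsUnit g) {ρ : B →+* Mat n}
    (h : IsRep x ρ) : IsRep x (conjBy g hg ρ) := by
  constructor
  · intro r
    rw [conjBy_apply, h.scalar, ← Algebra.commutes, mul_assoc, mul_inv' hg, mul_one]
  · have h1 : Set.range (conjBy g hg ρ) = conjL g '' Set.range ρ := by
      rw [← Set.range_comp]
      rfl
    rw [h1, Submodule.span_image, h.span, Submodule.map_top, LinearMap.range_eq_top]
    intro m
    refine ⟨g⁻¹ * m * g, ?_⟩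
    show g * (g⁻¹ * m * g) * g⁻¹ = m
    calc g * (g⁻¹ * m * g) * g⁻¹ = (g * g⁻¹) * m * (g * g⁻¹) := by simp only [mul_assoc]
      _ = m := by rw [mul_inv' hg, one_mul, mul_one]

theorem cont_mulVec {ι : Type} [Fintype ι] (v : ι → ℂ) (l : ι) :
    Continuous fun A : Matrix ι ι ℂ => (A *ᵥ v) l :=
  (continuous_apply l).comp (Continuous.matrix_mulVec continuous_id continuous_const)

/-- continuity of the conjugating automorphism -/
theorem lemK [IsAzumaya R B] (huni : S_uni) {T : Type} [TopologicalSpace T]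
    (x : T → R →+* ℂ) (hn : 0 < n) (F : Set T) (ρ₁ ρ₂ : T → B →+* Mat n)
    (h1 : IsFam x F ρ₁) (h2 : IsFam x F ρ₂) :
    ∃ g : T → Mat n, (∀ θ, IsUnit (g θ)) ∧ (∀ θ ∈ F, ∀ b, ρ₁ θ b * g θ = g θ * ρ₂ θ b) ∧
      ∀ m, ContinuousOn (fun θ => g θ * m * (g θ)⁻¹) F := by
  classical
  have hex : ∀ θ, ∃ g : Mat n, IsUnit g ∧ (θ ∈ F → ∀ b, ρ₁ θ b * g = g * ρ₂ θ b) := by
    intro θ
    by_cases hθ : θ ∈ F
    · obtain ⟨g, hg, hg'⟩ := huni R B (x θ) n (ρ₂ θ) (ρ₁ θ) hn (h2.rep θ hθ) (h1.rep θ hθ)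
      exact ⟨g, (Matrix.isUnit_iff_isUnit_det g).mpr (by rw [hg]; exact isUnit_one),
        fun _ => hg'⟩
    · exact ⟨1, isUnit_one, fun h => absurd h hθ⟩
  choose g hg hg' using hex
  refine ⟨g, hg, fun θ hθ => hg' θ hθ, fun m θ₀ hθ₀ => ?_⟩
  -- a basis of images
  have hsp : ⊤ ≤ Submodule.span ℂ (Set.range (ρ₂ θ₀)) := (h2.rep θ₀ hθ₀).span.ge
  let bs := Module.Basis.ofSpan hsp
  have hbr : Set.range bs ⊆ Set.range (ρ₂ θ₀) := Module.Basis.ofSpan_subset hsp
  have : Fintype ↥((linearIndepOn_empty ℂ id).extend (Set.empty_subset (Set.range (ρ₂ θ₀)))) :=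
    FiniteDimensional.fintypeBasisIndex bs
  choose β hβ using fun k => hbr (Set.mem_range_self k)
  let S : T → Matrix _ _ ℂ := fun θ => Matrix.of fun k l => bs.repr (ρ₂ θ (β l)) k
  have hS₀ : S θ₀ = 1 := by
    ext k l
    show bs.repr (ρ₂ θ₀ (β l)) k = _
    rw [hβ, Module.Basis.repr_self, Finsupp.single_apply, Matrix.one_apply]
    simp only [eq_comm]
  have hSc : ContinuousWithinAt S F θ₀ := by
    refine tendsto_pi_nhds.mpr fun k => tendsto_pi_nhds.mpr fun l => ?_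
    have hc := h2.cont (β l) θ₀ hθ₀
    have hL : Continuous fun m : Mat n => bs.repr m k :=
      (LinearMap.continuous_of_finiteDimensional (bs.coord k))
    exact hL.continuousAt.comp_continuousWithinAt hc
  have hdet : ContinuousWithinAt (fun θ => (S θ).det) F θ₀ :=
    (Continuous.matrix_det continuous_id).continuousAt.comp_continuousWithinAt hSc
  have hadj : ContinuousWithinAt (fun θ => (S θ).adjugate) F θ₀ :=
    (Continuous.matrix_adjugate continuous_id).continuousAt.comp_continuousWithinAt hSc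
  have hdet₀ : (S θ₀).det ≠ 0 := by rw [hS₀, Matrix.det_one]; exact one_ne_zero
  have hev : ∀ᶠ θ in 𝓝[F] θ₀, (S θ).det ≠ 0 :=
    hdet.eventually_ne hdet₀
  have hinv : ContinuousWithinAt (fun θ => ((S θ).det)⁻¹ • (S θ).adjugate) F θ₀ :=
    (hdet.inv₀ hdet₀).smul hadj
  let G : T → Mat n := fun θ =>
    ∑ l, ((((S θ).det)⁻¹ • (S θ).adjugate) *ᵥ (fun k => bs.repr m k)) l • ρ₁ θ (β l)
  have hG : ContinuousWithinAt G F θ₀ := by
    refine tendsto_finsetSum _ fun l _ => ?_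
    refine Filter.Tendsto.smul ?_ (h1.cont (β l) θ₀ hθ₀)
    exact (cont_mulVec (fun k => bs.repr m k) l).continuousAt.comp_continuousWithinAt hinv
  have heq : ∀ θ ∈ F, (S θ).det ≠ 0 → g θ * m * (g θ)⁻¹ = G θ := by
    intro θ hθ hd
    have hu : IsUnit (S θ).det := isUnit_iff_ne_zero.mpr hd
    set c := (((S θ).det)⁻¹ • (S θ).adjugate) *ᵥ (fun k => bs.repr m k) with hc
    have hSc' : S θ *ᵥ c = fun k => bs.repr m k := by
      rw [hc, Matrix.mulVec_mulVec, Matrix.mul_smul, Matrix.mul_adjugate, smul_smul,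
        inv_mul_cancel₀ hd, one_smul, Matrix.one_mulVec]
    have hm : m = ∑ l, c l • ρ₂ θ (β l) := by
      apply bs.repr.injective
      ext k
      rw [map_sum, Finsupp.finsetSum_apply]
      have := congrFun hSc' k
      rw [Matrix.mulVec, dotProduct] at this
      rw [← this]
      refine Finset.sum_congr rfl fun l _ => ?_
      rw [map_smul, Finsupp.smul_apply, smul_eq_mul, mul_comm]
      rfl
    show g θ * m * (g θ)⁻¹ = ∑ l, c l • ρ₁ θ (β l)
    conv_lhs => rw [hm]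
    rw [Finset.mul_sum, Finset.sum_mul]
    refine Finset.sum_congr rfl fun l _ => ?_
    rw [mul_smul_comm, smul_mul_assoc, ← hg' θ hθ, mul_assoc, mul_inv' (hg θ), mul_one]
  refine hG.congr_of_eventuallyEq ?_ (heq θ₀ hθ₀ hdet₀)
  filter_upwards [hev, self_mem_nhdsWithin] with θ hd hθ
  exact heq θ hθ hd

/-- conjugating a family -/
theorem fam_conj {T : Type} [TopologicalSpace T] (x : T → R →+* ℂ) (F Q : Set T)
    (g : T → Mat n) (hg : ∀ θ, IsUnit (g θ))
    (hgc : ∀ m, ContinuousOn (fun θ => g θ * m * (g θ)⁻¹) F) (r : T → T)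
    (hr : ContinuousOn r Q) (hrQ : Set.MapsTo r Q F) (ρ : T → B →+* Mat n)
    (h : IsFam x Q ρ) : IsFam x Q (fun θ => conjBy (g (r θ)) (hg (r θ)) (ρ θ)) := by
  constructor
  · intro θ hθ
    exact isRep_conj _ (h.rep θ hθ)
  · intro b
    have h1 : (fun θ => conjBy (g (r θ)) (hg (r θ)) (ρ θ) b) = fun θ =>
        ∑ i, ∑ j, (ρ θ b i j) • (g (r θ) * Matrix.single i j (1 : ℂ) * (g (r θ))⁻¹) := by
      funext θ
      rw [conjBy_apply]
      conv_lhs => rw [Matrix.matrix_eq_sum_single (ρ θ b)]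
      rw [Finset.mul_sum, Finset.sum_mul]
      refine Finset.sum_congr rfl fun i _ => ?_
      rw [Finset.mul_sum, Finset.sum_mul]
      refine Finset.sum_congr rfl fun j _ => ?_
      have h2 : Matrix.single i j (ρ θ b i j) = (ρ θ b i j) • Matrix.single i j (1 : ℂ) := by
        rw [Matrix.smul_single, smul_eq_mul, mul_one]
      rw [h2, mul_smul_comm, smul_mul_assoc]
    rw [h1]
    refine continuousOn_finsetSum _ fun i _ => continuousOn_finsetSum _ fun j _ => ?_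
    have h3 : Continuous fun m : Mat n => m i j := continuous_apply_apply i j
    have h4 : ContinuousOn (fun θ => ρ θ b i j) Q := h3.comp_continuousOn (h.cont b)
    have h5 : ContinuousOn (fun θ => g (r θ) * Matrix.single i j (1 : ℂ) * (g (r θ))⁻¹) Q :=
      (hgc (Matrix.single i j 1)).comp hr hrQ
    exact h4.smul h5

theorem fam_mono {T : Type} [TopologicalSpace T] {x : T → R →+* ℂ} {Q Q' : Set T}
    {ρ : T → B →+* Mat n} (h : IsFam x Q ρ) (hQ : Q' ⊆ Q) : IsFam x Q' ρ :=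
  ⟨fun θ hθ => h.rep θ (hQ hθ), fun b => (h.cont b).mono hQ⟩

/-- the degree is constant -/
theorem deg_const (hloc : S_loc) (hdeg : S_deg) (hrep : S_rep) [IsAzumaya R B] (d : ℕ)
    (x : (Fin d → ℝ) → R →+* ℂ) (hx : ∀ r, Continuous fun θ => x θ r) :
    ∃ (n : ℕ) (_ : 0 < n), ∀ θ, ∃ ρ : B →+* Mat n, IsRep (x θ) ρ := by
  choose deg hdeg0 ρ hρ using fun θ => hrep R B (x θ)
  have hlc : IsLocallyConstant deg := by
    rw [IsLocallyConstant.iff_exists_open]
    intro θ₀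
    obtain ⟨U, hU, ρ', hρ'⟩ := hloc R B (Fin d → ℝ) x hx θ₀ (deg θ₀) (hdeg0 θ₀) (ρ θ₀) (hρ θ₀)
    obtain ⟨V, hVU, hV, hθV⟩ := mem_nhds_iff.mp hU
    refine ⟨V, hV, hθV, fun θ hθ => ?_⟩
    exact hdeg R B (x θ) _ _ (ρ θ) (ρ' θ) (hdeg0 θ) (hdeg0 θ₀) (hρ θ) (hρ'.rep θ (hVU hθ))
  have hc : ∀ θ, deg θ = deg 0 := fun θ => hlc.apply_eq_of_preconnectedSpace θ 0
  refine ⟨deg 0, hdeg0 0, fun θ => ?_⟩
  rw [← hc θ]
  exact ⟨ρ θ, hρ θ⟩

/-- families on boxes -/
theorem box_fam (hloc : S_loc) (huni : S_uni) (hbox : S_box) [IsAzumaya R B] (d : ℕ)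
    (x : (Fin d → ℝ) → R →+* ℂ) (hx : ∀ r, Continuous fun θ => x θ r) (hn : 0 < n)
    (hrep : ∀ θ, ∃ ρ : B →+* Mat n, IsRep (x θ) ρ) :
    ∀ a b, a ≤ b → ∃ ρ : (Fin d → ℝ) → B →+* Mat n, IsFam x (Set.Icc a b) ρ := by
  classical
  refine hbox d (fun a b => ∃ ρ : (Fin d → ℝ) → B →+* Mat n, IsFam x (Set.Icc a b) ρ) ?_ ?_
  · intro θ
    obtain ⟨ρ₀, hρ₀⟩ := hrep θ
    obtain ⟨U, hU, ρ, hρ⟩ := hloc R B (Fin d → ℝ) x hx θ n hn ρ₀ hρ₀
    obtain ⟨ε, hε, hεU⟩ := Metric.mem_nhds_iff.mp hU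
    refine ⟨ε, hε, fun a b _ hab => ⟨ρ, fam_mono hρ fun y hy => hεU ?_⟩⟩
    rw [Metric.mem_ball, dist_pi_lt_iff hε]
    intro i
    rw [Real.dist_eq, abs_lt]
    have h1 := (abs_lt.mp (hab i).1).1
    have h2 := (abs_lt.mp (hab i).2).2
    have h3 := hy.1 i
    have h4 := hy.2 i
    constructor <;> linarith
  · rintro a b i c hab hac hcb ⟨ρ₁, h1⟩ ⟨ρ₂, h2⟩
    set Q₁ := Set.Icc a (Function.update b i c) with hQ₁
    set Q₂ := Set.Icc (Function.update a i c) b with hQ₂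
    let F : Set (Fin d → ℝ) := Q₁ ∩ Q₂
    obtain ⟨g, hg, hg', hgc⟩ := lemK huni x hn F ρ₁ ρ₂ (fam_mono h1 Set.inter_subset_left)
      (fam_mono h2 Set.inter_subset_right)
    let r : (Fin d → ℝ) → (Fin d → ℝ) := fun θ => Function.update θ i c
    have hr : Continuous r := continuous_id.update i continuous_const
    have hrQ : Set.MapsTo r Q₂ F := by
      intro θ hθ
      have ha : a ≤ r θ := by
        intro j
        show a j ≤ Function.update θ i c j
        by_cases hj : j = i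
        · subst hj; simpa using hac
        · rw [Function.update_of_ne hj]
          have := hθ.1 j
          rwa [Function.update_of_ne hj] at this
      have ha' : Function.update a i c ≤ r θ := by
        intro j
        show Function.update a i c j ≤ Function.update θ i c j
        by_cases hj : j = i
        · subst hj; simp
        · rw [Function.update_of_ne hj, Function.update_of_ne hj]
          have := hθ.1 j
          rwa [Function.update_of_ne hj] at this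
      have hb : r θ ≤ b := by
        intro j
        show Function.update θ i c j ≤ b j
        by_cases hj : j = i
        · subst hj; simpa using hcb
        · rw [Function.update_of_ne hj]
          exact hθ.2 j
      have hb' : r θ ≤ Function.update b i c := by
        intro j
        show Function.update θ i c j ≤ Function.update b i c j
        by_cases hj : j = i
        · subst hj; simp
        · rw [Function.update_of_ne hj, Function.update_of_ne hj]
          exact hθ.2 j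
      exact ⟨⟨ha, hb'⟩, ⟨ha', hb⟩⟩
    have h2' := fam_conj x F Q₂ g hg hgc r hr.continuousOn hrQ ρ₂ h2
    -- on the face both agree
    have hface : ∀ θ ∈ F, ∀ b', conjBy (g (r θ)) (hg (r θ)) (ρ₂ θ) b' = ρ₁ θ b' := by
      intro θ hθ b'
      have hθi : θ i = c := by
        have h3 := hθ.1.2 i
        have h4 := hθ.2.1 i
        simp only [Function.update_self] at h3 h4
        exact le_antisymm h3 h4
      have hrθ : r θ = θ := by
        show Function.update θ i c = θ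
        rw [← hθi, Function.update_eq_self]
      rw [hrθ, conjBy_apply, ← hg' θ hθ, mul_assoc, mul_inv' (hg θ), mul_one]
    let ρ : (Fin d → ℝ) → B →+* Mat n := fun θ =>
      if θ ∈ Q₁ then ρ₁ θ else conjBy (g (r θ)) (hg (r θ)) (ρ₂ θ)
    have e1 : ∀ θ ∈ Q₁, ρ θ = ρ₁ θ := fun θ hθ => if_pos hθ
    have e2 : ∀ θ ∈ Q₂, ρ θ = conjBy (g (r θ)) (hg (r θ)) (ρ₂ θ) := by
      intro θ hθ
      by_cases h3 : θ ∈ Q₁
      · rw [e1 θ h3]
        exact RingHom.ext fun b' => (hface θ ⟨h3, hθ⟩ b').symm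
      · exact if_neg h3
    have f1 : IsFam x Q₁ ρ := by
      constructor
      · intro θ hθ; rw [e1 θ hθ]; exact h1.rep θ hθ
      · intro b'
        exact (h1.cont b').congr fun θ hθ => by rw [e1 θ hθ]
    have f2 : IsFam x Q₂ ρ := by
      constructor
      · intro θ hθ; rw [e2 θ hθ]; exact h2'.rep θ hθ
      · intro b'
        exact (h2'.cont b').congr fun θ hθ => by rw [e2 θ hθ]
    have hU : Set.Icc a b ⊆ Q₁ ∪ Q₂ := by
      intro θ hθ
      rcases le_total (θ i) c with h3 | h3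
      · refine Or.inl ⟨hθ.1, fun j => ?_⟩
        by_cases hj : j = i
        · subst hj; simpa using h3
        · rw [Function.update_of_ne hj]; exact hθ.2 j
      · refine Or.inr ⟨fun j => ?_, hθ.2⟩
        by_cases hj : j = i
        · subst hj; simpa using h3
        · rw [Function.update_of_ne hj]; exact hθ.1 j
    refine ⟨ρ, ?_⟩
    have f : IsFam x (Q₁ ∪ Q₂) ρ := by
      constructor
      · rintro θ (hθ | hθ)
        · exact f1.rep θ hθ
        · exact f2.rep θ hθ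
      · intro b'
        exact (f1.cont b').union_of_isClosed (f2.cont b') isClosed_Icc isClosed_Icc
    exact fam_mono f hU

/-- the cubes -/
def Qb (d : ℕ) (k : ℕ) : Set (Fin d → ℝ) := Set.Icc (fun _ => -(k : ℝ)) (fun _ => (k : ℝ))

/-- clamping to the cube -/
noncomputable def cl (d : ℕ) (k : ℕ) (θ : Fin d → ℝ) : Fin d → ℝ :=
  fun i => max (-(k : ℝ)) (min (k : ℝ) (θ i))

theorem cl_cont (d k : ℕ) : Continuous (cl d k) :=
  continuous_pi fun i => continuous_const.max (continuous_const.min (continuous_apply i))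

theorem cl_mem (d k : ℕ) (θ : Fin d → ℝ) : cl d k θ ∈ Qb d k := by
  have hk : (0 : ℝ) ≤ k := Nat.cast_nonneg k
  exact ⟨fun i => le_max_left _ _, fun i => max_le (by linarith) (min_le_left _ _)⟩

theorem cl_eq (d k : ℕ) {θ : Fin d → ℝ} (hθ : θ ∈ Qb d k) : cl d k θ = θ := by
  funext i
  show max (-(k : ℝ)) (min (k : ℝ) (θ i)) = θ i
  rw [min_eq_right (hθ.2 i), max_eq_right (hθ.1 i)]

theorem Qb_mono (d : ℕ) {k l : ℕ} (h : k ≤ l) : Qb d k ⊆ Qb d l := by
  have h' : (k : ℝ) ≤ l := by exact_mod_cast h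
  intro θ hθ
  exact ⟨fun i => le_trans (neg_le_neg h') (hθ.1 i), fun i => (hθ.2 i).trans h'⟩

theorem step (hloc : S_loc) (huni : S_uni) (hbox : S_box) [IsAzumaya R B] (d : ℕ)
    (x : (Fin d → ℝ) → R →+* ℂ) (hx : ∀ r, Continuous fun θ => x θ r) (hn : 0 < n)
    (hrep : ∀ θ, ∃ ρ : B →+* Mat n, IsRep (x θ) ρ) (k : ℕ)
    (ρ : (Fin d → ℝ) → B →+* Mat n) (h : IsFam x (Qb d k) ρ) :
    ∃ ρ' : (Fin d → ℝ) → B →+* Mat n, IsFam x (Qb d (k + 1)) ρ' ∧
      ∀ θ ∈ Qb d k, ρ' θ = ρ θ := by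
  have hle : (fun _ => -((k + 1 : ℕ) : ℝ) : Fin d → ℝ) ≤ fun _ => ((k + 1 : ℕ) : ℝ) := by
    intro i
    have : (0 : ℝ) ≤ ((k + 1 : ℕ) : ℝ) := Nat.cast_nonneg _
    show -((k + 1 : ℕ) : ℝ) ≤ ((k + 1 : ℕ) : ℝ)
    linarith
  obtain ⟨σ, hσ⟩ := box_fam hloc huni hbox d x hx hn hrep _ _ hle
  change IsFam x (Qb d (k + 1)) σ at hσ
  obtain ⟨g, hg, hg', hgc⟩ := lemK huni x hn (Qb d k) ρ σ h (fam_mono hσ (Qb_mono d (Nat.le_succ k)))
  refine ⟨fun θ => conjBy (g (cl d k θ)) (hg (cl d k θ)) (σ θ),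
    fam_conj x (Qb d k) (Qb d (k + 1)) g hg hgc (cl d k) (cl_cont d k).continuousOn
      (fun θ _ => cl_mem d k θ) σ hσ, fun θ hθ => ?_⟩
  refine RingHom.ext fun b => ?_
  rw [conjBy_apply, cl_eq d k hθ, ← hg' θ hθ, mul_assoc, mul_inv' (hg θ), mul_one]

theorem triv (hloc : S_loc) (hdeg : S_deg) (huni : S_uni) (hbox : S_box) (hrep : S_rep) :
    S_triv := by
  intro R B _ _ _ _ d x hx
  obtain ⟨n, hn, hr⟩ := deg_const (B := B) hloc hdeg hrep d x hx
  refine ⟨n, hn, ?_⟩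
  have hle : (fun _ => -((0 : ℕ) : ℝ) : Fin d → ℝ) ≤ fun _ => ((0 : ℕ) : ℝ) := by
    intro i
    show -((0 : ℕ) : ℝ) ≤ ((0 : ℕ) : ℝ)
    simp
  obtain ⟨ρ₀, hρ₀⟩ := box_fam hloc huni hbox d x hx hn hr _ _ hle
  change IsFam x (Qb d 0) ρ₀ at hρ₀
  choose nx hnx hnx' using fun (k : ℕ) (s : {ρ : (Fin d → ℝ) → B →+* Mat n // IsFam x (Qb d k) ρ}) =>
    step hloc huni hbox d x hx hn hr k s.1 s.2
  let sq : (k : ℕ) → {ρ : (Fin d → ℝ) → B →+* Mat n // IsFam x (Qb d k) ρ} := fun k =>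
    Nat.rec ⟨ρ₀, hρ₀⟩ (fun k s => ⟨nx k s, hnx k s⟩) k
  have hsq : ∀ k, ∀ θ ∈ Qb d k, (sq (k + 1)).1 θ = (sq k).1 θ := fun k θ hθ => hnx' k (sq k) θ hθ
  have hsq' : ∀ k j, ∀ θ ∈ Qb d k, (sq (k + j)).1 θ = (sq k).1 θ := by
    intro k j
    induction j with
    | zero => intro θ _; rfl
    | succ j ih =>
      intro θ hθ
      rw [← ih θ hθ]
      exact hsq (k + j) θ (Qb_mono d (Nat.le_add_right k j) hθ)
  let K : (Fin d → ℝ) → ℕ := fun θ => ⌈‖θ‖⌉₊
  have hK : ∀ θ (k : ℕ), ‖θ‖ ≤ k → θ ∈ Qb d k := by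
    intro θ k hk
    refine ⟨fun i => ?_, fun i => ?_⟩
    · have := (norm_le_pi_norm θ i).trans hk
      rw [Real.norm_eq_abs, abs_le] at this
      exact this.1
    · have := (norm_le_pi_norm θ i).trans hk
      rw [Real.norm_eq_abs, abs_le] at this
      exact this.2
  have hfin : ∀ k : ℕ, ∀ θ, ‖θ‖ ≤ (k : ℝ) → (sq (K θ)).1 θ = (sq k).1 θ := by
    intro k θ hk
    have h1 : K θ ≤ k := Nat.ceil_le.mpr hk
    obtain ⟨j, rfl⟩ := Nat.exists_eq_add_of_le h1
    exact (hsq' (K θ) j θ (hK θ _ (Nat.le_ceil _))).symm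
  refine ⟨fun θ => (sq (K θ)).1 θ, fun θ _ => ?_, fun b => ?_⟩
  · exact (sq (K θ)).2.rep θ (hK θ _ (Nat.le_ceil _))
  · rw [continuousOn_univ, continuous_iff_continuousAt]
    intro θ₀
    obtain ⟨k, hk⟩ := exists_nat_gt (‖θ₀‖)
    have hnb : {θ : Fin d → ℝ | ‖θ‖ < k} ∈ 𝓝 θ₀ :=
      (isOpen_lt continuous_norm continuous_const).mem_nhds hk
    have hQn : Qb d k ∈ 𝓝 θ₀ := Filter.mem_of_superset hnb fun θ hθ => hK θ k (le_of_lt hθ)
    have h1 : ContinuousAt (fun θ => (sq k).1 θ b) θ₀ := ((sq k).2.cont b).continuousAt hQn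
    refine h1.congr ?_
    filter_upwards [hnb] with θ hθ
    rw [hfin k θ (le_of_lt hθ)]

end Pool.Agent.W249.BM
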